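import Pool.Agent.X177.TP.Words

/-!
# MP_81f2fa_al, Q1: the maximal support size of trace polynomials has cubic growth

The words `a^p b^q (ab)^r` have trace polynomials with at least a constant times `p q r` monomials,
so that `M(n)` is of the exact order `n ^ 3`.
-/

set_option autoImplicit false

namespace Pool.Agent.Results.MP_81f2fa_al.CubicGrowth

open Matrix

/-- `f ∈ ℤ[x, y, z]` is a trace polynomial of the word `w` of the free group `F(a, b)`:
`tr w(A, B) = f(tr A, tr B, tr AB)` for all `A, B` in `SL(2, ℂ)`. -/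
def IsTracePoly (w : FreeGroup (Fin 2)) (f : MvPolynomial (Fin 3) ℤ) : Prop :=
  ∀ A B : SpecialLinearGroup (Fin 2) ℂ,
    trace (FreeGroup.lift ![A, B] w : SpecialLinearGroup (Fin 2) ℂ).1 =
      MvPolynomial.aeval ![trace A.1, trace B.1, trace (A.1 * B.1)] f

open Classical in
/-- The trace polynomial `f_w` of `w` (it exists and is unique by the first part of `result`). -/
noncomputable def tracePoly (w : FreeGroup (Fin 2)) : MvPolynomial (Fin 3) ℤ :=
  if h : ∃ f, IsTracePoly w f then h.choose else 0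

/-- The support size `N(w)`: the number of monomials with nonzero coefficient in `f_w`. -/
noncomputable def supportSize (w : FreeGroup (Fin 2)) : ℕ := (tracePoly w).support.card

/-- `M(n)`: the maximum of `N(w)` over the cyclically reduced words of length `n`. -/
noncomputable def maxSupport (n : ℕ) : ℕ :=
  sSup {k | ∃ L : List (Fin 2 × Bool), FreeGroup.IsCyclicallyReduced L ∧ L.length = n ∧
    supportSize (FreeGroup.mk L) = k}

theorem isTracePoly_mk (L : List (Fin 2 × Bool)) :
    IsTracePoly (FreeGroup.mk L) (X177.TP.trp L) := by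
  intro A B
  rw [FreeGroup.lift_mk]
  exact X177.TP.trace_val A B L

theorem unique {w : FreeGroup (Fin 2)} {f g : MvPolynomial (Fin 3) ℤ} (hf : IsTracePoly w f)
    (hg : IsTracePoly w g) : f = g :=
  X177.TP.poly_unique f g fun A B => (hf A B).symm.trans (hg A B)

theorem tracePoly_mk (L : List (Fin 2 × Bool)) :
    tracePoly (FreeGroup.mk L) = X177.TP.trp L := by
  classical
  have h : ∃ f, IsTracePoly (FreeGroup.mk L) f := ⟨_, isTracePoly_mk L⟩
  unfold tracePoly
  rw [dif_pos h]
  exact unique h.choose_spec (isTracePoly_mk L)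

/-- **Answer to Q1.** Every word has exactly one trace polynomial, and `M(n)` has the exact order
of growth `n ^ 3`: for all `n ≥ 8` one has `n ^ 3 / 2662 ≤ M(n) ≤ 64 n ^ 3`. -/
theorem result :
    (∀ w : FreeGroup (Fin 2), ∃! f : MvPolynomial (Fin 3) ℤ, IsTracePoly w f) ∧
    ∀ n : ℕ, 8 ≤ n → n ^ 3 ≤ 2662 * maxSupport n ∧ maxSupport n ≤ 64 * n ^ 3 := by
  refine ⟨fun w => ?_, fun n hn => ?_⟩
  · refine ⟨X177.TP.trp w.toWord, ?_, fun g hg => ?_⟩
    · have := isTracePoly_mk w.toWord
      rwa [FreeGroup.mk_toWord] at this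
    · have := isTracePoly_mk w.toWord
      rw [FreeGroup.mk_toWord] at this
      exact unique hg this
  · have hup : ∀ k ∈ {k | ∃ L : List (Fin 2 × Bool), FreeGroup.IsCyclicallyReduced L ∧
        L.length = n ∧ supportSize (FreeGroup.mk L) = k}, k ≤ 64 * n ^ 3 := by
      rintro k ⟨L, _, hL, rfl⟩
      unfold supportSize
      rw [tracePoly_mk]
      refine (X177.TP.card_support_le _ _ (X177.TP.deg_trp L)).trans ?_
      rw [hL]
      have h1 : 2 * n + 1 + 1 ≤ 4 * n := by omega
      calc (2 * n + 1 + 1) ^ 3 ≤ (4 * n) ^ 3 := Nat.pow_le_pow_left h1 3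
        _ = 64 * n ^ 3 := by ring
    obtain ⟨m, hm⟩ : ∃ m, m = n / 4 := ⟨_, rfl⟩
    have hm2 : 2 ≤ m := by omega
    set P := m - 1 with hP
    set Q := n - 3 * m - 1 with hQ
    have hlen : (X177.TP.wd P Q P).length = n := by
      rw [X177.TP.length_wd]
      omega
    have hmem : supportSize (FreeGroup.mk (X177.TP.wd P Q P)) ∈
        {k | ∃ L : List (Fin 2 × Bool), FreeGroup.IsCyclicallyReduced L ∧
        L.length = n ∧ supportSize (FreeGroup.mk L) = k} :=
      ⟨_, X177.TP.cyc_wd P Q P, hlen, rfl⟩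
    have hle : supportSize (FreeGroup.mk (X177.TP.wd P Q P)) ≤ maxSupport n :=
      le_csSup ⟨_, fun k hk => hup k hk⟩ hmem
    refine ⟨?_, csSup_le ⟨_, hmem⟩ hup⟩
    have h1 : (P / 2 + 1) * (Q / 2 + 1) * ((P + 1) / 2) ≤
        supportSize (FreeGroup.mk (X177.TP.wd P Q P)) := by
      unfold supportSize
      rw [tracePoly_mk, X177.TP.trp_wd]
      exact X177.TP.FF_card P Q P (by omega) (by omega)
    have hX : m ≤ 2 * (P / 2 + 1) := by omega
    have hY : m ≤ 2 * (Q / 2 + 1) := by omega
    have hZ : m ≤ 4 * ((P + 1) / 2) := by omega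
    have hn2 : 2 * n ≤ 11 * m := by omega
    have h2 : m * m * m ≤ (2 * (P / 2 + 1)) * (2 * (Q / 2 + 1)) * (4 * ((P + 1) / 2)) :=
      Nat.mul_le_mul (Nat.mul_le_mul hX hY) hZ
    have h3 : (2 * n) ^ 3 ≤ (11 * m) ^ 3 := Nat.pow_le_pow_left hn2 3
    have h4 : (P / 2 + 1) * (Q / 2 + 1) * ((P + 1) / 2) ≤ maxSupport n := h1.trans hle
    nlinarith

end Pool.Agent.Results.MP_81f2fa_al.CubicGrowth
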